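import Mathlib

/-!
# Project PQ (helper783), HUN: diagonalisation over a local ring in which two is invertible
-/

set_option autoImplicit false

namespace Pool.Agent.N644.PQ.HunA

open Matrix

variable {R : Type} [CommRing R] [IsLocalRing R]

/-- the block matrix with the blocks `a` and `G` -/
def blk {n : ℕ} (a : R) (G : Matrix (Fin n) (Fin n) R) : Matrix (Fin (n + 1)) (Fin (n + 1)) R :=
  Matrix.of (Fin.cons (Fin.cons a fun _ => 0) fun i => Fin.cons 0 (G i))

omit [IsLocalRing R] in
@[simp] theorem blk_00 {n : ℕ} (a : R) (G : Matrix (Fin n) (Fin n) R) : blk a G 0 0 = a := rfl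

omit [IsLocalRing R] in
@[simp] theorem blk_0s {n : ℕ} (a : R) (G : Matrix (Fin n) (Fin n) R) (j : Fin n) :
    blk a G 0 j.succ = 0 := rfl

omit [IsLocalRing R] in
@[simp] theorem blk_s0 {n : ℕ} (a : R) (G : Matrix (Fin n) (Fin n) R) (i : Fin n) :
    blk a G i.succ 0 = 0 := rfl

omit [IsLocalRing R] in
@[simp] theorem blk_ss {n : ℕ} (a : R) (G : Matrix (Fin n) (Fin n) R) (i j : Fin n) :
    blk a G i.succ j.succ = G i j := rfl

omit [IsLocalRing R] in
theorem det_blk {n : ℕ} (a : R) (G : Matrix (Fin n) (Fin n) R) : (blk a G).det = a * G.det := by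
  rw [Matrix.det_succ_row_zero, Fin.sum_univ_succ]
  have h1 : (blk a G).submatrix Fin.succ (Fin.succAbove 0) = G := by
    ext i j
    simp [Matrix.submatrix]
  simp only [blk_00, blk_0s, mul_zero, zero_mul, Finset.sum_const_zero, add_zero, h1]
  simp

omit [IsLocalRing R] in
theorem blk_mul {n : ℕ} (a b : R) (G H : Matrix (Fin n) (Fin n) R) :
    blk a G * blk b H = blk (a * b) (G * H) := by
  ext i j
  rw [Matrix.mul_apply, Fin.sum_univ_succ]
  refine Fin.cases ?_ (fun i => ?_) i <;> refine Fin.cases ?_ (fun j => ?_) j <;>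
    simp [Matrix.mul_apply]

omit [IsLocalRing R] in
theorem blk_transpose {n : ℕ} (a : R) (G : Matrix (Fin n) (Fin n) R) :
    (blk a G)ᵀ = blk a Gᵀ := by
  ext i j
  refine Fin.cases ?_ (fun i => ?_) i <;> refine Fin.cases ?_ (fun j => ?_) j <;> simp

omit [IsLocalRing R] in
theorem blk_diagonal {n : ℕ} (a : R) (b : Fin n → R) :
    blk a (Matrix.diagonal b) = Matrix.diagonal (Fin.cons a b) := by
  ext i j
  refine Fin.cases ?_ (fun i => ?_) i <;> refine Fin.cases ?_ (fun j => ?_) j
  · simp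
  · rw [blk_0s, Matrix.diagonal_apply_ne _ (Fin.succ_ne_zero j).symm]
  · rw [blk_s0, Matrix.diagonal_apply_ne _ (Fin.succ_ne_zero i)]
  · rw [blk_ss]
    by_cases h : i = j
    · subst h
      simp
    · rw [Matrix.diagonal_apply_ne _ h, Matrix.diagonal_apply_ne _
        (fun h' => h (Fin.succ_injective _ h'))]

/-- a symmetric matrix with unit determinant represents a unit -/
theorem exists_unit {n : ℕ} (h2 : IsUnit (2 : R)) (G : Matrix (Fin (n + 1)) (Fin (n + 1)) R)
    (hs : G.IsSymm) (hd : IsUnit G.det) : ∃ P : Matrix (Fin (n + 1)) (Fin (n + 1)) R,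
      IsUnit P.det ∧ IsUnit ((P * G * Pᵀ) 0 0) := by
  classical
  by_cases hex : ∃ i, IsUnit (G i i)
  · obtain ⟨i, hi⟩ := hex
    refine ⟨(Equiv.swap 0 i).permMatrix R, ?_, ?_⟩
    · rw [Matrix.det_permutation]
      rcases Int.units_eq_one_or (Equiv.Perm.sign (Equiv.swap 0 i)) with h | h <;> rw [h] <;> simp
    · have h1 : ((Equiv.swap 0 i).permMatrix R * G * ((Equiv.swap 0 i).permMatrix R)ᵀ) 0 0 =
          G i i := by
        rw [Matrix.mul_apply]
        simp [Matrix.mul_apply, Equiv.Perm.permMatrix, PEquiv.toMatrix_apply,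
          Equiv.toPEquiv_apply, Matrix.transpose_apply]
      rw [h1]
      exact hi
  · push Not at hex
    -- some entry of the row `0` is a unit
    have hrow : ∃ j, IsUnit (G 0 j) := by
      by_contra hcon
      push Not at hcon
      apply (IsLocalRing.mem_maximalIdeal _).1 ?_ hd
      rw [Matrix.det_succ_row_zero]
      refine Ideal.sum_mem _ fun j _ => ?_
      apply Ideal.mul_mem_right
      apply Ideal.mul_mem_left
      exact (IsLocalRing.mem_maximalIdeal _).2 (hcon j)
    obtain ⟨j, hj⟩ := hrow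
    have hj0 : j ≠ 0 := by
      rintro rfl
      exact hex 0 hj
    refine ⟨Matrix.transvection 0 j 1, ?_, ?_⟩
    · rw [Matrix.det_transvection_of_ne _ _ (Ne.symm hj0)]
      exact isUnit_one
    · have h1 : (Matrix.transvection 0 j (1 : R) * G * (Matrix.transvection 0 j (1 : R))ᵀ) 0 0 =
          G 0 0 + G j j + 2 * G 0 j := by
        have hsym : G j 0 = G 0 j := hs.apply 0 j
        have e1 : (Matrix.transvection 0 j (1 : R))ᵀ = Matrix.transvection j 0 1 := by
          unfold Matrix.transvection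
          rw [Matrix.transpose_add, Matrix.transpose_one, Matrix.transpose_single]
        rw [e1]
        unfold Matrix.transvection
        simp [Matrix.add_mul, Matrix.mul_apply, Matrix.single_apply]
        simp only [mul_add, Finset.sum_add_distrib, Matrix.one_apply, mul_ite, mul_one, mul_zero,
          Finset.sum_ite_eq, Finset.sum_ite_eq', Finset.mem_univ, if_true]
        rw [hsym]
        ring
      rw [h1]
      have h3 : ∀ x y : R, ¬ IsUnit x → IsUnit y → IsUnit (x + y) := by
        intro x y hx hy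
        by_contra hcon
        apply (IsLocalRing.mem_maximalIdeal _).1 ?_ hy
        have := Ideal.sub_mem _ ((IsLocalRing.mem_maximalIdeal _).2 hcon)
          ((IsLocalRing.mem_maximalIdeal _).2 hx)
        rwa [add_sub_cancel_left] at this
      refine h3 _ _ ?_ (h2.mul hj)
      intro hcon
      apply (IsLocalRing.mem_maximalIdeal _).1 ?_ hcon
      exact Ideal.add_mem _ ((IsLocalRing.mem_maximalIdeal _).2 (hex 0))
        ((IsLocalRing.mem_maximalIdeal _).2 (hex j))

/-- a lower triangular matrix -/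
def lo {n : ℕ} (c : Fin n → R) : Matrix (Fin (n + 1)) (Fin (n + 1)) R :=
  Matrix.of (Fin.cons (Fin.cons 1 fun _ => 0) fun i =>
    Fin.cons (c i) ((1 : Matrix (Fin n) (Fin n) R) i))

omit [IsLocalRing R] in
@[simp] theorem lo_00 {n : ℕ} (c : Fin n → R) : lo c 0 0 = 1 := rfl

omit [IsLocalRing R] in
@[simp] theorem lo_0s {n : ℕ} (c : Fin n → R) (j : Fin n) : lo c 0 j.succ = 0 := rfl

omit [IsLocalRing R] in
@[simp] theorem lo_s0 {n : ℕ} (c : Fin n → R) (i : Fin n) : lo c i.succ 0 = c i := rfl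

omit [IsLocalRing R] in
@[simp] theorem lo_ss {n : ℕ} (c : Fin n → R) (i j : Fin n) :
    lo c i.succ j.succ = (1 : Matrix (Fin n) (Fin n) R) i j := rfl

omit [IsLocalRing R] in
theorem det_lo {n : ℕ} (c : Fin n → R) : (lo c).det = 1 := by
  rw [Matrix.det_succ_row_zero, Fin.sum_univ_succ]
  have h1 : (lo c).submatrix Fin.succ (Fin.succAbove 0) = 1 := by
    ext i j
    simp [Matrix.submatrix]
  simp only [lo_00, lo_0s, mul_zero, zero_mul, Finset.sum_const_zero, add_zero, h1]
  simp

omit [IsLocalRing R] in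
/-- elimination -/
theorem elim {n : ℕ} (G : Matrix (Fin (n + 1)) (Fin (n + 1)) R) (hs : G.IsSymm)
    (ha : IsUnit (G 0 0)) : ∃ (E : Matrix (Fin (n + 1)) (Fin (n + 1)) R)
      (G' : Matrix (Fin n) (Fin n) R), E.det = 1 ∧ G'.IsSymm ∧ E * blk (G 0 0) G' * Eᵀ = G := by
  obtain ⟨u, hu⟩ := ha
  set b : R := (↑u⁻¹ : R) with hb
  have hab : G 0 0 * b = 1 := by rw [← hu, hb, Units.mul_inv]
  have hs' : ∀ i j, G i j = G j i := fun i j => hs.apply j i
  refine ⟨lo fun i => G i.succ 0 * b,
    Matrix.of fun i j => G i.succ j.succ - G i.succ 0 * b * G 0 j.succ, det_lo _, ?_, ?_⟩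
  · ext i j
    simp only [Matrix.transpose_apply, Matrix.of_apply]
    rw [hs' j.succ i.succ, hs' j.succ 0, hs' 0 i.succ]
    ring
  · ext i j
    rw [Matrix.mul_apply, Fin.sum_univ_succ]
    refine Fin.cases ?_ (fun i => ?_) i <;> refine Fin.cases ?_ (fun j => ?_) j
    · simp [Matrix.mul_apply, Fin.sum_univ_succ]
    · simp [Matrix.mul_apply, Fin.sum_univ_succ, Matrix.transpose_apply]
      rw [hs' 0 j.succ]
      linear_combination (G j.succ 0) * hab
    · simp [Matrix.mul_apply, Fin.sum_univ_succ, Matrix.transpose_apply]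
      linear_combination (G i.succ 0) * hab
    · simp [Matrix.mul_apply, Fin.sum_univ_succ, Matrix.transpose_apply, Matrix.one_apply]
      rw [hs' 0 j.succ]
      linear_combination (G i.succ 0 * b * G j.succ 0) * hab

/-- diagonalisation -/
theorem diag (h2 : IsUnit (2 : R)) : ∀ (n : ℕ) (G : Matrix (Fin n) (Fin n) R), G.IsSymm →
    IsUnit G.det → ∃ (T : Matrix (Fin n) (Fin n) R) (a : Fin n → R), (∀ i, IsUnit (a i)) ∧
      T * Matrix.diagonal a * Tᵀ = G := by
  intro n
  induction n with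
  | zero =>
    intro G _ _
    exact ⟨1, fun i => i.elim0, fun i => i.elim0, by ext i; exact i.elim0⟩
  | succ n ih =>
    intro G hs hd
    obtain ⟨P, hP, hu⟩ := exists_unit h2 G hs hd
    have hs1 : (P * G * Pᵀ).IsSymm := by
      unfold Matrix.IsSymm
      rw [Matrix.transpose_mul, Matrix.transpose_mul, Matrix.transpose_transpose, hs.eq,
        Matrix.mul_assoc]
    obtain ⟨E, G', hE, hG's, hG'⟩ := elim (P * G * Pᵀ) hs1 hu
    have hdet : IsUnit G'.det := by
      have h1 : (P * G * Pᵀ).det = (P * G * Pᵀ) 0 0 * G'.det := by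
        conv_lhs => rw [← hG']
        rw [Matrix.det_mul, Matrix.det_mul, Matrix.det_transpose, hE, det_blk]
        ring
      have h3 : IsUnit (P * G * Pᵀ).det := by
        rw [Matrix.det_mul, Matrix.det_mul, Matrix.det_transpose]
        exact (hP.mul hd).mul hP
      rw [h1] at h3
      exact isUnit_of_mul_isUnit_right h3
    obtain ⟨T, a, ha, hT⟩ := ih G' hG's hdet
    have hPi : P⁻¹ * P = 1 := Matrix.nonsing_inv_mul P hP
    have hPi' : Pᵀ * (P⁻¹)ᵀ = 1 := by
      rw [← Matrix.transpose_mul, hPi, Matrix.transpose_one]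
    refine ⟨P⁻¹ * E * blk 1 T, Fin.cons ((P * G * Pᵀ) 0 0) a, ?_, ?_⟩
    · intro i
      refine Fin.cases ?_ (fun i => ?_) i
      · exact hu
      · exact ha i
    · rw [← blk_diagonal, Matrix.transpose_mul, Matrix.transpose_mul, blk_transpose]
      have h4 : blk 1 T * blk ((P * G * Pᵀ) 0 0) (Matrix.diagonal a) * blk 1 Tᵀ =
          blk ((P * G * Pᵀ) 0 0) G' := by
        rw [blk_mul, blk_mul, one_mul, mul_one, hT]
      calc P⁻¹ * E * blk 1 T * blk ((P * G * Pᵀ) 0 0) (Matrix.diagonal a) *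
            (blk 1 Tᵀ * (Eᵀ * (P⁻¹)ᵀ))
          = P⁻¹ * (E * (blk 1 T * blk ((P * G * Pᵀ) 0 0) (Matrix.diagonal a) * blk 1 Tᵀ) * Eᵀ) *
            (P⁻¹)ᵀ := by simp only [Matrix.mul_assoc]
        _ = P⁻¹ * (P * G * Pᵀ) * (P⁻¹)ᵀ := by rw [h4, hG']
        _ = (P⁻¹ * P) * G * (Pᵀ * (P⁻¹)ᵀ) := by simp only [Matrix.mul_assoc]
        _ = G := by rw [hPi, hPi', Matrix.one_mul, Matrix.mul_one]

end Pool.Agent.N644.PQ.HunA
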