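import Pool.Agent.W335.BMX.Odd
import Pool.Agent.N202.M4.Stm

/-!
# Project PQ (helper783), HUN: symbols of units, Gram matrices of the forms `u x y`
-/

set_option autoImplicit false

namespace Pool.Agent.N644.PQ.HunB

open Polynomial Matrix
open Pool.Agent.W313.BMX (Splits)
open Pool.Agent.N202.M4 (hasse hil)

/-! ### Units at odd primes -/

theorem splits_units {p : ℕ} [hp : Fact p.Prime] (hp2 : p ≠ 2) (u w : ℤ_[p]) (hu : IsUnit u)
    (hw : IsUnit w) : Splits (u : ℚ_[p]) (w : ℚ_[p]) := by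
  have hm0 : PadicInt.toZMod u ≠ 0 := (hu.map PadicInt.toZMod).ne_zero
  have he0 : PadicInt.toZMod w ≠ 0 := (hw.map PadicInt.toZMod).ne_zero
  have hd1 : degree (C (PadicInt.toZMod u : ZMod p) * X ^ 2) = 2 := degree_C_mul_X_pow 2 hm0
  have hd2 : degree (C (PadicInt.toZMod w : ZMod p) * X ^ 2 - C 1) = 2 := by
    rw [degree_sub_eq_left_of_degree_lt]
    · exact degree_C_mul_X_pow 2 he0
    · rw [degree_C_mul_X_pow 2 he0, degree_C one_ne_zero]
      norm_num
  obtain ⟨a, b, hab⟩ := FiniteField.exists_root_sum_quadratic hd1 hd2 (by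
    rw [ZMod.card]
    exact (Nat.Prime.eq_two_or_odd hp.out).resolve_left hp2)
  simp only [eval_mul, eval_C, eval_pow, eval_X, eval_sub] at hab
  obtain ⟨x, rfl⟩ : ∃ x : ℤ, (x : ZMod p) = a := ZMod.intCast_surjective a
  obtain ⟨y, rfl⟩ : ∃ y : ℤ, (y : ZMod p) = b := ZMod.intCast_surjective b
  have hr : PadicInt.toZMod (u * (x : ℤ_[p]) ^ 2 + w * (y : ℤ_[p]) ^ 2 : ℤ_[p]) = 1 ^ 2 := by
    simp only [map_add, map_mul, map_pow, map_intCast]
    linear_combination hab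
  obtain ⟨z, hz⟩ := Pool.Agent.W335.BMX.isSquare_coe
    (Pool.Agent.W335.BMX.sq_of_residue hp2 _ 1 one_ne_zero hr)
  refine ⟨x, y, z, ?_, ?_⟩
  · by_contra hc
    push Not at hc
    obtain ⟨h1, h2, -⟩ := hc
    have h1' : x = 0 := by exact_mod_cast h1
    have h2' : y = 0 := by exact_mod_cast h2
    rw [h1', h2'] at hr
    simp at hr
  · rw [sq, ← hz]
    push_cast
    ring

theorem hasse_one {F : Type} [Field F] (l : List F) (h : ∀ a ∈ l, ∀ b ∈ l, Splits a b) :
    hasse (hil F) l = 1 := by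
  induction l with
  | nil => rfl
  | cons a l ih =>
    show (l.map (hil F a)).prod * hasse (hil F) l = 1
    rw [ih fun a' ha' b hb => h a' (List.mem_cons_of_mem _ ha') b (List.mem_cons_of_mem _ hb),
      mul_one]
    apply List.prod_eq_one
    intro x hx
    obtain ⟨b, hb, rfl⟩ := List.mem_map.1 hx
    have h1 := h a List.mem_cons_self b (List.mem_cons_of_mem _ hb)
    unfold hil
    exact if_pos h1

theorem hasse_units {p : ℕ} [hp : Fact p.Prime] (hp2 : p ≠ 2) {n : ℕ} (a : Fin n → ℤ_[p])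
    (ha : ∀ i, IsUnit (a i)) : hasse (hil ℚ_[p]) (List.ofFn fun i => (a i : ℚ_[p])) = 1 := by
  apply hasse_one
  intro x hx y hy
  rw [List.mem_ofFn] at hx hy
  obtain ⟨i, rfl⟩ := hx
  obtain ⟨j, rfl⟩ := hy
  exact splits_units hp2 _ _ (ha i) (ha j)

/-! ### Gram matrices -/

section gram

variable {R : Type} [CommRing R] {g : ℕ} {f : R[X]}

/-- multiplication by `u` modulo `f` -/
noncomputable def Mu (g : ℕ) (f u : R[X]) : Matrix (Fin (2 * g + 1)) (Fin (2 * g + 1)) R :=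
  Matrix.of fun i k => ((u * X ^ (i : ℕ)) %ₘ f).coeff k

/-- the Gram matrix of the form `u x y` -/
noncomputable def Gr (g : ℕ) (f u : R[X]) : Matrix (Fin (2 * g + 1)) (Fin (2 * g + 1)) R :=
  Matrix.of fun i j => ((u * X ^ ((i : ℕ) + j)) %ₘ f).coeff (2 * g)

theorem mod_eq (hf : f.Monic) {P Q : R[X]} (h : f ∣ P - Q) : P %ₘ f = Q %ₘ f :=
  Polynomial.modByMonic_eq_of_dvd_sub hf h

theorem expand (hf : f.Monic) (hd : f.natDegree = 2 * g + 1) (P A : R[X]) (m : ℕ) :
    ∑ k : Fin (2 * g + 1), (P %ₘ f).coeff k * ((A * X ^ (k : ℕ)) %ₘ f).coeff m =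
      ((A * P) %ₘ f).coeff m := by
  nontriviality R
  have h1 : (P %ₘ f).natDegree < 2 * g + 1 := by
    rw [← hd]
    apply Polynomial.natDegree_modByMonic_lt P hf
    rintro rfl
    rw [natDegree_one] at hd
    omega
  have h2 : (A * P) %ₘ f = (A * (P %ₘ f)) %ₘ f := by
    apply mod_eq hf
    have h3 : P - P %ₘ f = f * (P /ₘ f) := by
      rw [sub_eq_iff_eq_add, add_comm]
      exact (Polynomial.modByMonic_add_div P f).symm
    rw [← mul_sub, h3]
    exact Dvd.intro _ (by ring : f * (A * (P /ₘ f)) = A * (f * (P /ₘ f)))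
  rw [h2]
  conv_rhs => rw [(P %ₘ f).as_sum_range_C_mul_X_pow' h1]
  rw [Finset.mul_sum]
  have h4 : ∀ S : Finset ℕ, (∑ i ∈ S, A * (C ((P %ₘ f).coeff i) * X ^ i)) %ₘ f =
      ∑ i ∈ S, C ((P %ₘ f).coeff i) * ((A * X ^ i) %ₘ f) := by
    intro S
    have h5 : ∀ Q : R[X], Q %ₘ f = Polynomial.modByMonicHom f Q := fun _ => rfl
    rw [h5, map_sum]
    refine Finset.sum_congr rfl fun i _ => ?_
    have h6 : A * (C ((P %ₘ f).coeff i) * X ^ i) = (P %ₘ f).coeff i • (A * X ^ i) := by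
      rw [smul_eq_C_mul]
      ring
    rw [h6, map_smul, smul_eq_C_mul, ← h5]
  rw [h4, Polynomial.finsetSum_coeff, Finset.sum_range]
  refine Finset.sum_congr rfl fun k _ => ?_
  rw [coeff_C_mul]

theorem Mu_mul (hf : f.Monic) (hd : f.natDegree = 2 * g + 1) (A B : R[X]) :
    Mu g f A * Mu g f B = Mu g f (A * B) := by
  ext i j
  rw [Matrix.mul_apply]
  have h1 := expand hf hd (A * X ^ (i : ℕ)) B (j : ℕ)
  simp only [Mu, Matrix.of_apply]
  rw [h1]
  congr 2
  ring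

theorem X_pow_mod (hf : f.Monic) (hd : f.natDegree = 2 * g + 1) {m : ℕ} (hm : m < 2 * g + 1) :
    (X ^ m : R[X]) %ₘ f = X ^ m := by
  nontriviality R
  rw [Polynomial.modByMonic_eq_self_iff hf, degree_X_pow, Polynomial.degree_eq_natDegree hf.ne_zero,
    hd]
  exact_mod_cast hm

theorem Mu_one (hf : f.Monic) (hd : f.natDegree = 2 * g + 1) {u : R[X]} (h : f ∣ u - 1) :
    Mu g f u = 1 := by
  ext i j
  simp only [Mu, Matrix.of_apply]
  have h1 : (u * X ^ (i : ℕ)) %ₘ f = X ^ (i : ℕ) := by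
    rw [mod_eq hf (Q := X ^ (i : ℕ)), X_pow_mod hf hd i.2]
    have : u * X ^ (i : ℕ) - X ^ (i : ℕ) = (u - 1) * X ^ (i : ℕ) := by ring
    rw [this]
    exact h.mul_right _
  rw [h1, coeff_X_pow, Matrix.one_apply]
  by_cases hij : i = j
  · subst hij
    simp
  · rw [if_neg hij, if_neg]
    intro h'
    exact hij (Fin.ext h'.symm)

theorem Gr_one (hf : f.Monic) (hd : f.natDegree = 2 * g + 1) : IsUnit (Gr g f 1).det := by
  have h1 : ((Gr g f 1).submatrix id Fin.revPerm).det = 1 := by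
    rw [Matrix.det_of_isLowerTriangular]
    · apply Finset.prod_eq_one
      intro i _
      have h2 : (i : ℕ) + ((Fin.rev i : Fin (2 * g + 1)) : ℕ) = 2 * g := by
        rw [Fin.val_rev]
        omega
      simp only [Matrix.submatrix_apply, Gr, Matrix.of_apply, id, Fin.revPerm_apply, one_mul]
      rw [h2, X_pow_mod hf hd (by omega), coeff_X_pow, if_pos rfl]
    · intro i j hij
      have hij' : i < j := hij
      have h2 : (i : ℕ) + ((Fin.rev j : Fin (2 * g + 1)) : ℕ) < 2 * g := by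
        rw [Fin.val_rev]
        have := hij'
        rw [Fin.lt_def] at this
        omega
      simp only [Matrix.submatrix_apply, Gr, Matrix.of_apply, id, Fin.revPerm_apply, one_mul]
      rw [X_pow_mod hf hd (by omega), coeff_X_pow, if_neg (by omega)]
  rw [Matrix.det_permute'] at h1
  exact IsUnit.of_mul_eq_one_right _ h1

theorem Gr_eq (hf : f.Monic) (hd : f.natDegree = 2 * g + 1) (u : R[X]) :
    Gr g f u = Mu g f u * Gr g f 1 := by
  ext i j
  rw [Matrix.mul_apply]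
  have h1 := expand hf hd (u * X ^ (i : ℕ)) (X ^ (j : ℕ)) (2 * g)
  simp only [Mu, Gr, Matrix.of_apply, one_mul]
  rw [show (u * X ^ ((i : ℕ) + j) : R[X]) = X ^ (j : ℕ) * (u * X ^ (i : ℕ)) by ring, ← h1]
  refine Finset.sum_congr rfl fun k _ => ?_
  rw [← pow_add, add_comm (j : ℕ)]

theorem Gr_det (hf : f.Monic) (hd : f.natDegree = 2 * g + 1) {u u' : R[X]} (h : f ∣ u * u' - 1) :
    IsUnit (Gr g f u).det := by
  rw [Gr_eq hf hd, Matrix.det_mul]
  refine IsUnit.mul ?_ (Gr_one hf hd)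
  have h1 : (Mu g f u).det * (Mu g f u').det = 1 := by
    rw [← Matrix.det_mul, Mu_mul hf hd, Mu_one hf hd h, Matrix.det_one]
  exact IsUnit.of_mul_eq_one _ h1

theorem Gr_symm (u : R[X]) : (Gr g f u).IsSymm := by
  ext i j
  simp only [Matrix.transpose_apply, Gr, Matrix.of_apply]
  rw [add_comm (j : ℕ)]

theorem Gr_sq (hf : f.Monic) (hd : f.natDegree = 2 * g + 1) {h s u : R[X]}
    (hh : f ∣ h - s ^ 2 * u) : Gr g f h = Mu g f s * Gr g f u * (Mu g f s)ᵀ := by
  ext i j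
  rw [Matrix.mul_apply]
  have h1 : ∀ l : Fin (2 * g + 1), (Mu g f s * Gr g f u) i l =
      ((u * s * X ^ (i : ℕ)) * X ^ (l : ℕ) %ₘ f).coeff (2 * g) := by
    intro l
    rw [Matrix.mul_apply]
    have h2 := expand hf hd (s * X ^ (i : ℕ)) (u * X ^ (l : ℕ)) (2 * g)
    simp only [Mu, Gr, Matrix.of_apply]
    rw [show (u * s * X ^ (i : ℕ) * X ^ (l : ℕ) : R[X]) = u * X ^ (l : ℕ) * (s * X ^ (i : ℕ)) by
      ring, ← h2]
    refine Finset.sum_congr rfl fun k _ => ?_
    rw [show (u * X ^ ((k : ℕ) + l) : R[X]) = u * X ^ (l : ℕ) * X ^ (k : ℕ) by ring]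
  simp only [h1]
  have h3 := expand hf hd (s * X ^ (j : ℕ)) (u * s * X ^ (i : ℕ)) (2 * g)
  have h4 : (h * X ^ ((i : ℕ) + j)) %ₘ f = (u * s * X ^ (i : ℕ) * (s * X ^ (j : ℕ))) %ₘ f := by
    apply mod_eq hf
    have : h * X ^ ((i : ℕ) + j) - u * s * X ^ (i : ℕ) * (s * X ^ (j : ℕ)) =
        (h - s ^ 2 * u) * X ^ ((i : ℕ) + j) := by ring
    rw [this]
    exact hh.mul_right _
  show ((h * X ^ ((i : ℕ) + j)) %ₘ f).coeff (2 * g) = _
  rw [h4, ← h3]
  refine Finset.sum_congr rfl fun l _ => ?_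
  rw [mul_comm]
  rfl

theorem Gr_map {S : Type} [CommRing S] (φ : R →+* S) (hf : f.Monic) (u : R[X]) :
    (Gr g f u).map φ = Gr g (f.map φ) (u.map φ) := by
  ext i j
  simp only [Matrix.map_apply, Gr, Matrix.of_apply]
  rw [← coeff_map, Polynomial.map_modByMonic _ hf, Polynomial.map_mul, Polynomial.map_pow, map_X]

end gram

end Pool.Agent.N644.PQ.HunB
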