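import Mathlib

/-!
# Project PQ (helper783), HUN: weak approximation and denominators
-/

set_option autoImplicit false

namespace Pool.Agent.N644.PQ.HunC

open IsDedekindDomain WithZero

section approx

variable {O L : Type} [CommRing O] [IsDedekindDomain O] [Field L] [Algebra O L]
  [IsFractionRing O L]

/-- weak approximation, only for valuations -/
theorem approx (S : Finset (HeightOneSpectrum O)) (y : HeightOneSpectrum O → L)
    (hy : ∀ v ∈ S, y v ≠ 0) :
    ∃ x : L, x ≠ 0 ∧ ∀ v ∈ S, v.valuation L x = v.valuation L (y v) := by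
  classical
  obtain ⟨d, hd⟩ := IsLocalization.exist_integer_multiples_of_finset (nonZeroDivisors O)
    (S.image y)
  have hd0 : algebraMap O L d ≠ 0 := by
    intro h
    exact nonZeroDivisors.coe_ne_zero d
      ((injective_iff_map_eq_zero _).1 (IsFractionRing.injective O L) _ h)
  have h1 : ∀ v : S, ∃ z : O, algebraMap O L z = algebraMap O L d * y v := by
    intro v
    obtain ⟨z, hz⟩ := hd (y v) (Finset.mem_image_of_mem _ v.2)
    refine ⟨z, ?_⟩
    rw [hz, Algebra.smul_def]
  choose z hz using h1
  have hz0 : ∀ v : S, z v ≠ 0 := by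
    intro v h
    have h2 := hz v
    rw [h, map_zero] at h2
    exact mul_ne_zero hd0 (hy v v.2) h2.symm
  obtain ⟨w, hw⟩ := exists_forall_sub_mem_ideal (s := S)
    (fun v : HeightOneSpectrum O => v.asIdeal)
    (fun v => if h : v ∈ S then
      (Associates.mk v.asIdeal).count (Associates.mk (Ideal.span {z ⟨v, h⟩} : Ideal O)).factors + 1
      else 0)
    (fun v _ => v.prime)
    (fun v _ w _ hvw h => hvw (HeightOneSpectrum.ext h)) z
  have h3 : ∀ v ∈ S, v.valuation L (algebraMap O L w / algebraMap O L d) =
      v.valuation L (y v) := by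
    intro v hv
    have h4 := hw v hv
    rw [dif_pos hv, ← HeightOneSpectrum.intValuation_le_pow_iff_mem] at h4
    have h5 := v.intValuation_if_neg (hz0 ⟨v, hv⟩)
    have h6 : v.intValuation (w - z ⟨v, hv⟩) < v.intValuation (z ⟨v, hv⟩) := by
      refine lt_of_le_of_lt h4 ?_
      rw [h5, exp_lt_exp]
      push_cast
      linarith
    have h7 : v.intValuation w = v.intValuation (z ⟨v, hv⟩) := by
      have h8 := Valuation.map_add_eq_of_lt_left v.intValuation h6
      rwa [add_sub_cancel] at h8
    have e : ∀ r : O, v.valuation L (algebraMap O L r) = v.intValuation r :=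
      fun r => v.valuation_of_algebraMap r
    rw [map_div₀, e w, h7, ← e, hz ⟨v, hv⟩, map_mul]
    have h9 : v.valuation L (algebraMap O L d) ≠ 0 := (Valuation.ne_zero_iff _).2 hd0
    rw [mul_div_assoc, mul_comm, div_mul_cancel₀ _ h9]
  by_cases hw0 : algebraMap O L w / algebraMap O L d = 0
  · rw [hw0] at h3
    refine ⟨1, one_ne_zero, fun v hv => ?_⟩
    exfalso
    have h4 := h3 v hv
    rw [map_zero] at h4
    exact hy v hv ((Valuation.zero_iff _).1 h4.symm)
  · exact ⟨_, hw0, h3⟩

/-- the primes which contain a nonzero element are finite in number -/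
theorem finite_over (a : O) (ha : a ≠ 0) : {v : HeightOneSpectrum O | a ∈ v.asIdeal}.Finite := by
  have h1 := Ideal.finite_factors (R := O) (I := Ideal.span {a})
    (by rw [Ne, Ideal.zero_eq_bot, Ideal.span_singleton_eq_bot]; exact ha)
  refine h1.subset fun v hv => ?_
  exact (Ideal.dvd_span_singleton).2 hv

/-- denominators prime to `p` -/
theorem den (hint : ∀ a : L, ∃ N : ℤ, N ≠ 0 ∧ ∃ z : O, algebraMap O L z = N * a) [CharZero L]
    (p : ℕ) (hp : p.Prime) (β : L)
    (hβ : ∀ v : HeightOneSpectrum O, (p : O) ∈ v.asIdeal → v.valuation L β ≤ 1) :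
    ∃ m : ℤ, ¬ (p : ℤ) ∣ m ∧ ∃ z : O, algebraMap O L z = m * β := by
  obtain ⟨N, hN, z, hz⟩ := hint β
  have hfm : FiniteMultiplicity (p : ℤ) N := by
    rw [Int.finiteMultiplicity_iff]
    refine ⟨?_, hN⟩
    rw [Int.natAbs_natCast]
    exact hp.ne_one
  obtain ⟨m, hm, hpm⟩ := hfm.exists_eq_pow_mul_and_not_dvd
  refine ⟨m, hpm, ?_⟩
  apply HeightOneSpectrum.mem_integers_of_valuation_le_one
  intro v
  have e : ∀ r : O, v.valuation L (algebraMap O L r) = v.intValuation r :=
    fun r => v.valuation_of_algebraMap r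
  have hmv : v.valuation L ((m : ℤ) : L) ≤ 1 := by
    have h0 := e (m : O)
    rw [map_intCast (algebraMap O L)] at h0
    rw [h0]
    exact v.intValuation_le_one _
  by_cases hv : (p : O) ∈ v.asIdeal
  · rw [map_mul]
    exact mul_le_one' hmv (hβ v hv)
  · have h1 : v.valuation L ((p : ℕ) : L) = 1 := by
      have h2 := e (p : O)
      rw [map_natCast (algebraMap O L)] at h2
      rw [h2]
      refine le_antisymm (v.intValuation_le_one _) ?_
      by_contra hcon
      rw [not_le, v.intValuation_lt_one_iff_mem] at hcon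
      exact hv hcon
    have h3 : v.valuation L (algebraMap O L z) ≤ 1 := by
      rw [e]
      exact v.intValuation_le_one _
    rw [hz, hm] at h3
    push_cast at h3
    rw [mul_assoc, map_mul, map_pow, h1, one_pow, one_mul] at h3
    exact h3

end approx

end Pool.Agent.N644.PQ.HunC
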