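import Pool.Agent.N783.PQ.Loc
import Pool.Agent.N833.PQ.Int
import Pool.Agent.N644.PQ.HunA
import Pool.Agent.N644.PQ.HunB
import Pool.Agent.N644.PQ.HunC

/-!
# Project PQ (helper783), HUN: unramified classes at odd primes have trivial invariant
-/

set_option autoImplicit false
set_option linter.all false

open Polynomial IsDedekindDomain Matrix NumberField
open scoped Classical

namespace Pool.Agent.N644.PQ.Hun

open Pool.Agent.N783.PQ Pool.Agent.N644.PQ.HunA Pool.Agent.N644.PQ.HunB Pool.Agent.N644.PQ.HunC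
open Pool.Agent.N874.PP (Ev Sq1 U0)
open Pool.Agent.N202.M4 (hasse hil)

/-- up to squares `α` is a unit at `p` -/
theorem unit_at (hI : S_INT) {g : ℕ} {L : Type} [Field L] [NumberField L] {f : ℤ[X]} {θ : L}
    (hG : IsGen g f θ) (hsq : Squarefree (dsc g f)) {p : ℕ} (hp : p.Prime) {α : L} (hα : α ≠ 0)
    (hev : ∀ 𝔓 : HeightOneSpectrum (𝓞 L), Ov p 𝔓 → Ev 𝔓 α) :
    ∃ (s : ℚ[X]) (v v' : ℤ[X]) (m m' : ℤ), ¬ (p : ℤ) ∣ m ∧ ¬ (p : ℤ) ∣ m' ∧
      (m : L) * α = (aeval θ s) ^ 2 * aeval θ v ∧ aeval θ v * aeval θ v' = (m : L) * m' := by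
  have hp0 : (p : 𝓞 L) ≠ 0 := by
    exact_mod_cast hp.ne_zero
  have hfin := finite_over (O := 𝓞 L) (p : 𝓞 L) hp0
  have hy : ∀ 𝔓 : HeightOneSpectrum (𝓞 L), ∃ y : L, Ov p 𝔓 →
      𝔓.valuation L α = 𝔓.valuation L y ^ 2 := by
    intro 𝔓
    by_cases h : Ov p 𝔓
    · obtain ⟨y, hy⟩ := hev 𝔓 h
      exact ⟨y, fun _ => hy⟩
    · exact ⟨0, fun h' => absurd h' h⟩
  choose y hy using hy
  have hy0 : ∀ 𝔓 ∈ hfin.toFinset, y 𝔓 ≠ 0 := by
    intro 𝔓 h𝔓 h0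
    rw [Set.Finite.mem_toFinset] at h𝔓
    have h1 := hy 𝔓 h𝔓
    rw [h0, map_zero, zero_pow two_ne_zero] at h1
    exact hα ((Valuation.zero_iff _).1 h1)
  obtain ⟨x, hx0, hx⟩ := approx hfin.toFinset y hy0
  have hx2 : x ^ 2 ≠ 0 := pow_ne_zero 2 hx0
  have hv1 : ∀ 𝔓 : HeightOneSpectrum (𝓞 L), (p : 𝓞 L) ∈ 𝔓.asIdeal →
      𝔓.valuation L (α / x ^ 2) = 1 := by
    intro 𝔓 h𝔓
    rw [map_div₀, map_pow, hx 𝔓 (hfin.mem_toFinset.2 h𝔓), hy 𝔓 h𝔓]
    apply div_self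
    have h1 := (Valuation.ne_zero_iff (𝔓.valuation L)).2 hα
    rwa [hy 𝔓 h𝔓] at h1
  have hint : ∀ a : L, ∃ N : ℤ, N ≠ 0 ∧ ∃ z : 𝓞 L, algebraMap (𝓞 L) L z = N * a := by
    intro a
    have h1 : IsAlgebraic ℤ a := by
      have h2 : IsAlgebraic ℚ a := Algebra.IsAlgebraic.isAlgebraic a
      exact (IsFractionRing.isAlgebraic_iff ℤ ℚ L).2 h2
    obtain ⟨N, hN, hNa⟩ := h1.exists_integral_multiple
    refine ⟨N, hN, ⟨⟨N • a, hNa⟩, ?_⟩⟩
    show N • a = (N : L) * a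
    rw [zsmul_eq_mul]
  obtain ⟨m, hm, z, hz⟩ := den (O := 𝓞 L) hint p hp (α / x ^ 2) fun 𝔓 h => (hv1 𝔓 h).le
  obtain ⟨m', hm', z', hz'⟩ := den (O := 𝓞 L) hint p hp (α / x ^ 2)⁻¹ fun 𝔓 h => by
    rw [map_inv₀, hv1 𝔓 h, inv_one]
  have hpoly : ∀ w : 𝓞 L, ∃ v : ℤ[X], aeval θ v = algebraMap (𝓞 L) L w := by
    intro w
    obtain ⟨c, hc⟩ := (hI g L f θ hG hsq (algebraMap (𝓞 L) L w)).1 (RingOfIntegers.isIntegral_coe w)
    refine ⟨∑ i : Fin (2 * g + 1), C (c i) * X ^ (i : ℕ), ?_⟩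
    rw [hc, map_sum]
    refine Finset.sum_congr rfl fun i _ => ?_
    simp
  obtain ⟨v, hv⟩ := hpoly z
  obtain ⟨v', hv'⟩ := hpoly z'
  obtain ⟨c, hc⟩ := hG.gen x
  refine ⟨∑ i : Fin (2 * g + 1), C (c i) * X ^ (i : ℕ), v, v', m, m', hm, hm', ?_, ?_⟩
  · have h1 : aeval θ (∑ i : Fin (2 * g + 1), C (c i) * X ^ (i : ℕ)) = x := by
      rw [map_sum]
      conv_rhs => rw [hc]
      refine Finset.sum_congr rfl fun i _ => ?_
      rw [map_mul, aeval_C, map_pow, aeval_X]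
      rfl
    rw [h1, hv, hz]
    field_simp
  · rw [hv, hv', hz, hz']
    have h1 : (α / x ^ 2) * (α / x ^ 2)⁻¹ = 1 := mul_inv_cancel₀ (div_ne_zero hα hx2)
    linear_combination (m : L) * m' * h1

theorem unit_int {p : ℕ} [hp : Fact p.Prime] {m : ℤ} (hm : ¬ (p : ℤ) ∣ m) :
    IsUnit (m : ℤ_[p]) := by
  rw [PadicInt.isUnit_iff]
  refine le_antisymm (PadicInt.norm_le_one _) ?_
  by_contra hc
  rw [not_le, PadicInt.norm_int_lt_one_iff_dvd] at hc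
  exact hm hc

theorem hun (hI : S_INT) : S_HUN := by
  intro g L _ _ f θ hg hG hsq p hp hp2 h hα _ hev
  obtain ⟨s, v, v', m, m', hm, hm', h1, h2⟩ := unit_at hI hG hsq hp.out hα hev
  -- divisibility over `ℚ` and over `ℤ`
  have hfm : f.Monic := hG.mon
  have hmin := Pool.Agent.N833.PQ.minp hG
  have d1 : ov ℚ f ∣ C (m : ℚ) * h - s ^ 2 * ov ℚ v := by
    have e1 : aeval θ (C (m : ℚ) * h - s ^ 2 * ov ℚ v) = 0 := by
      have e2 : aeval θ (ov ℚ v) = aeval θ v := by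
        show aeval θ (v.map (algebraMap ℤ ℚ)) = aeval θ v
        rw [aeval_map_algebraMap]
      rw [map_sub, map_mul, map_mul, aeval_C, e2, map_pow, ← h1, map_intCast, sub_self]
    have e3 := minpoly.dvd ℚ θ e1
    rw [hmin] at e3
    exact e3
  have d2 : f ∣ v * v' - C (m * m') := by
    have e1 : aeval θ ((v * v' - C (m * m')).map (algebraMap ℤ ℚ)) = 0 := by
      rw [aeval_map_algebraMap, map_sub, map_mul, h2, aeval_C]
      simp
    have e3 := minpoly.dvd ℚ θ e1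
    rw [hmin] at e3
    exact (Polynomial.map_dvd_map (algebraMap ℤ ℚ) (RingHom.injective_int _) hfm).1 e3
  -- over the `p`-adic integers
  set fp : ℤ_[p][X] := f.map (Int.castRingHom ℤ_[p]) with hfp
  have hfpm : fp.Monic := hfm.map _
  have hfpd : fp.natDegree = 2 * g + 1 := by
    rw [hfp, hfm.natDegree_map, hG.deg]
  obtain ⟨μ, hμ⟩ := (unit_int (p := p) hm).exists_left_inv
  obtain ⟨μ', hμ'⟩ := (unit_int (p := p) hm').exists_left_inv
  set U : ℤ_[p][X] := C μ * v.map (Int.castRingHom ℤ_[p]) with hU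
  set U' : ℤ_[p][X] := C μ' * v'.map (Int.castRingHom ℤ_[p]) with hU'
  have d3 : fp ∣ U * U' - 1 := by
    have e1 := Polynomial.map_dvd (Int.castRingHom ℤ_[p]) d2
    have e2 : U * U' - 1 = C (μ * μ') * (v * v' - C (m * m')).map (Int.castRingHom ℤ_[p]) := by
      rw [hU, hU', Polynomial.map_sub, Polynomial.map_mul, Polynomial.map_C]
      have e3 : C (μ * μ') * C ((Int.castRingHom ℤ_[p]) (m * m')) = (1 : ℤ_[p][X]) := by
        have this : μ * μ' * (Int.castRingHom ℤ_[p]) (m * m') = 1 := by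
          simp only [eq_intCast, Int.cast_mul]
          linear_combination (μ' * (m' : ℤ_[p])) * hμ + hμ'
        rw [← C_mul, this, C_1]
      rw [mul_sub, e3, C_mul]
      ring
    rw [e2]
    exact e1.mul_left _
  have h2u : IsUnit (2 : ℤ_[p]) := by
    have h3 : ¬ (p : ℤ) ∣ 2 := Pool.Agent.W335.BMX.two_not_dvd hp2
    have := unit_int (p := p) h3
    simpa using this
  obtain ⟨T, a, ha, hT⟩ := diag h2u (2 * g + 1) (Gr g fp U) (Gr_symm U) (Gr_det hfpm hfpd d3)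
  -- over the `p`-adic numbers
  have hfQ : (ov ℚ_[p] f).Monic := hfm.map _
  have hfQd : (ov ℚ_[p] f).natDegree = 2 * g + 1 := by
    rw [hfm.natDegree_map, hG.deg]
  have hcoe : (algebraMap ℤ_[p] ℚ_[p]).comp (Int.castRingHom ℤ_[p]) = Int.castRingHom ℚ_[p] :=
    RingHom.ext_int _ _
  have hcoe2 : (Rat.castHom ℚ_[p]).comp (Int.castRingHom ℚ) = Int.castRingHom ℚ_[p] :=
    RingHom.ext_int _ _
  have d4 : ov ℚ_[p] f ∣ oq ℚ_[p] h - (oq ℚ_[p] s) ^ 2 * U.map (algebraMap ℤ_[p] ℚ_[p]) := by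
    have e1 := Polynomial.map_dvd (Rat.castHom ℚ_[p]) d1
    have e0 : (ov ℚ f).map (Rat.castHom ℚ_[p]) = ov ℚ_[p] f := by
      show (f.map _).map _ = f.map _
      rw [Polynomial.map_map, hcoe2]
    have e0' : (ov ℚ v).map (Rat.castHom ℚ_[p]) = ov ℚ_[p] v := by
      show (v.map _).map _ = v.map _
      rw [Polynomial.map_map, hcoe2]
    rw [e0, Polynomial.map_sub, Polynomial.map_mul, Polynomial.map_mul, Polynomial.map_pow, e0',
      Polynomial.map_C] at e1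
    have e2 : U.map (algebraMap ℤ_[p] ℚ_[p]) = C ((μ : ℚ_[p])) * ov ℚ_[p] v := by
      rw [hU, Polynomial.map_mul, Polynomial.map_C, Polynomial.map_map, hcoe]
      rfl
    have e3 : C (μ : ℚ_[p]) * C ((Rat.castHom ℚ_[p]) (m : ℚ)) = (1 : ℚ_[p][X]) := by
      rw [← C_mul]
      have e4 : (μ : ℚ_[p]) * (Rat.castHom ℚ_[p]) (m : ℚ) = 1 := by
        have e5 := congrArg (fun z : ℤ_[p] => (z : ℚ_[p])) hμ
        simp only [PadicInt.coe_mul, PadicInt.coe_intCast, PadicInt.coe_one] at e5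
        simpa using e5
      rw [e4, C_1]
    have e6 : oq ℚ_[p] h - (oq ℚ_[p] s) ^ 2 * U.map (algebraMap ℤ_[p] ℚ_[p]) =
        C (μ : ℚ_[p]) * (C ((Rat.castHom ℚ_[p]) (m : ℚ)) * oq ℚ_[p] h -
          (oq ℚ_[p] s) ^ 2 * ov ℚ_[p] v) := by
      rw [e2]
      linear_combination (-(oq ℚ_[p] h)) * e3
    rw [e6]
    exact e1.mul_left _
  have hGm : Gm g (ov ℚ_[p] f) (oq ℚ_[p] h) =
      (Mu g (ov ℚ_[p] f) (oq ℚ_[p] s) * T.map (algebraMap ℤ_[p] ℚ_[p])) *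
        Matrix.diagonal (fun i => (a i : ℚ_[p])) *
        (Mu g (ov ℚ_[p] f) (oq ℚ_[p] s) * T.map (algebraMap ℤ_[p] ℚ_[p]))ᵀ := by
    have e1 : Gm g (ov ℚ_[p] f) (oq ℚ_[p] h) = Gr g (ov ℚ_[p] f) (oq ℚ_[p] h) := rfl
    rw [e1, Gr_sq hfQ hfQd d4]
    have e2 : Gr g (ov ℚ_[p] f) (U.map (algebraMap ℤ_[p] ℚ_[p])) =
        (Gr g fp U).map (algebraMap ℤ_[p] ℚ_[p]) := by
      rw [Gr_map _ hfpm, hfp, Polynomial.map_map, hcoe]
    rw [e2, ← hT, Matrix.map_mul, Matrix.map_mul, Matrix.transpose_mul, Matrix.transpose_map,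
      Matrix.diagonal_map (map_zero _)]
    simp only [Matrix.mul_assoc]
    rfl
  refine ⟨fun i => (a i : ℚ_[p]), Mu g (ov ℚ_[p] f) (oq ℚ_[p] s) *
    T.map (algebraMap ℤ_[p] ℚ_[p]), ?_, hGm.symm, ?_⟩
  · intro i hi
    have hi' : (a i : ℚ_[p]) = 0 := hi
    exact (ha i).ne_zero (Subtype.ext hi')
  · rw [hasse_units hp2 a ha, one_mul]
    have e1 : (fun i : Fin (2 * g + 1) => (sg g i : ℚ_[p])) =
        fun i : Fin (2 * g + 1) =>
          (((if (i : ℕ) < 2 * g then (-1) ^ (i : ℕ) else 1 : ℤ_[p])) : ℚ_[p]) := by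
      funext i
      unfold sg
      split_ifs <;> simp
    have e2 : (sg g : Fin (2 * g + 1) → ℚ_[p]) = fun i => (sg g i : ℚ_[p]) := rfl
    rw [e2, e1, hasse_units hp2]
    intro i
    split_ifs
    · exact (isUnit_one.neg).pow _
    · exact isUnit_one

end Pool.Agent.N644.PQ.Hun
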